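import Mathlib
import Pool.Agent.Y644.PLN.Core

/-!
# MP_60be70_gt: prescribed paracompact and Lindelof powers, the other powers not even normal

A stronger form of the positive answer: the spaces are first countable, have a base of clopen sets
and a coarser separable metrizable topology, and a power is paracompact iff it is normal.
-/

set_option autoImplicit false

namespace Pool.Agent.Results.MP_60be70_gt.NonNormalPowers

open Pool.Agent.Helper747.PL (lindelof_of_le)
open Pool.Agent.Y644.PLN

/-- For all `1 ≤ k ≤ m ≤ ω` there is a first countable regular Hausdorff space `P` with a base of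
clopen sets and with a continuous injection into a separable metrizable space such that, for every
positive integer `n`, the power `P^n` is paracompact iff `n < m`, is normal iff `n < m`, and is
Lindelöf iff `n < k`. -/
theorem result (k m : ℕ∞) (hk : 1 ≤ k) (hkm : k ≤ m) :
    ∃ (P : Type) (_ : TopologicalSpace P), T3Space P ∧ FirstCountableTopology P ∧
      TopologicalSpace.IsTopologicalBasis {s : Set P | IsClopen s} ∧
      (∃ (M : Type) (_ : TopologicalSpace M), TopologicalSpace.MetrizableSpace M ∧
        TopologicalSpace.SeparableSpace M ∧ ∃ i : P → M, Continuous i ∧ Function.Injective i) ∧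
      ∀ n : ℕ, 1 ≤ n →
        (ParacompactSpace (Fin n → P) ↔ (n : ℕ∞) < m) ∧
        (NormalSpace (Fin n → P) ↔ (n : ℕ∞) < m) ∧
        (LindelofSpace (Fin n → P) ↔ (n : ℕ∞) < k) := by
  induction m using ENat.recTopCoe with
  | top =>
    induction k using ENat.recTopCoe with
    | top =>
      refine ⟨PUnit, inferInstance, inferInstance, inferInstance, ?_, ?_,
        fun n _ => ⟨?_, ?_, ?_⟩⟩
      · apply ClopenNhds.basis
        intro U _ x hx
        exact ⟨Set.univ, isClopen_univ, Set.mem_univ _, fun y _ => by
          rwa [Subsingleton.elim y x]⟩
      · exact ⟨PUnit, inferInstance, inferInstance, inferInstance, id, continuous_id,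
          Function.injective_id⟩
      · exact ⟨fun _ => ENat.coe_lt_top n, fun _ => inferInstance⟩
      · exact ⟨fun _ => ENat.coe_lt_top n, fun _ => inferInstance⟩
      · exact ⟨fun _ => ENat.coe_lt_top n, fun _ => inferInstance⟩
    | coe a =>
      have ha : 1 ≤ a := by exact_mod_cast hk
      obtain ⟨P, t, h1, h2, ⟨hf, hc, hs⟩, h3, h4, h5, _⟩ := exists_space a 0 ha (Or.inl rfl)
      refine ⟨P, t, h1, hf, hc.basis, hs, fun n _ => ⟨?_, ?_, ?_⟩⟩
      · exact ⟨fun _ => ENat.coe_lt_top n, fun _ => h3 n (Or.inl rfl)⟩
      · refine ⟨fun _ => ENat.coe_lt_top n, fun _ => ?_⟩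
        have := h3 n (Or.inl rfl)
        infer_instance
      · rw [ENat.coe_lt_coe]
        constructor
        · intro hL
          by_contra hn
          exact h5 n (not_lt.1 hn) hL
        · exact fun hn => h4 n (Or.inl rfl) hn
  | coe b =>
    induction k using ENat.recTopCoe with
    | top => exact absurd hkm (not_le.2 (ENat.coe_lt_top b))
    | coe a =>
      have ha : 1 ≤ a := by exact_mod_cast hk
      have hab : a ≤ b := by exact_mod_cast hkm
      by_cases hb : 2 ≤ b
      · obtain ⟨P, t, h1, h2, ⟨hf, hc, hs⟩, h3, h4, h5, h6⟩ := exists_space a b ha (Or.inr hb)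
        have hN : ∀ n, NormalSpace (Fin n → P) ↔ n < b := by
          intro n
          constructor
          · intro hP
            by_contra hn
            exact h6 (by omega) n (not_lt.1 hn) hP
          · intro hn
            have := h3 n (Or.inr hn)
            infer_instance
        refine ⟨P, t, h1, hf, hc.basis, hs, fun n _ => ⟨?_, ?_, ?_⟩⟩
        · rw [ENat.coe_lt_coe]
          constructor
          · intro hP
            exact (hN n).1 inferInstance
          · exact fun hn => h3 n (Or.inr hn)
        · rw [ENat.coe_lt_coe]
          exact hN n
        · rw [ENat.coe_lt_coe]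
          constructor
          · intro hL
            by_contra hn
            exact h5 n (not_lt.1 hn) hL
          · exact fun hn => h4 n (Or.inr (by omega)) hn
      · have hb1 : b = 1 := by omega
        have ha1 : a = 1 := by omega
        subst hb1 ha1
        obtain ⟨P, t, h1, h2, ⟨hf, hc, hs⟩, h3, h4, h5, h6⟩ :=
          exists_space 1 2 le_rfl (Or.inr le_rfl)
        have hN : ∀ n, 1 ≤ n → ¬ NormalSpace (Fin n → (Fin 2 → P)) := by
          intro n hn hP
          exact h6 (by norm_num) 2 le_rfl (normal_up_one (normal_of_le hn hP))
        refine ⟨Fin 2 → P, inferInstance, inferInstance, inferInstance,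
          (clopenNhds_pi hc 2).basis, submetrizable_pi hs 2, fun n hn => ⟨?_, ?_, ?_⟩⟩
        · rw [ENat.coe_lt_coe]
          constructor
          · intro hP
            have hP2 : NormalSpace (Fin n → (Fin 2 → P)) := inferInstance
            exact absurd hP2 (hN n hn)
          · intro hn'
            omega
        · rw [ENat.coe_lt_coe]
          constructor
          · intro hP
            exact absurd hP (hN n hn)
          · intro hn'
            omega
        · rw [ENat.coe_lt_coe]
          constructor
          · intro hL
            have h7 := lindelof_of_le hn hL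
            have h8 : LindelofSpace (Fin 2 → P) := by
              refine ⟨?_⟩
              have e : (Fin 1 → (Fin 2 → P)) ≃ₜ (Fin 2 → P) := Homeomorph.funUnique (Fin 1) _
              have h9 := (isLindelof_univ (X := Fin 1 → (Fin 2 → P))).image e.continuous
              rwa [Set.image_univ, e.surjective.range_eq] at h9
            exact absurd h8 (h5 2 (by norm_num))
          · intro hn'
            omega

end Pool.Agent.Results.MP_60be70_gt.NonNormalPowers
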